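import Pool.Agent.H8.SA.Defs

set_option autoImplicit false

open Set Metric MeasureTheory Filter Function
open scoped Topology

namespace Pool.Agent.H8.SA

/-- The exponents. -/
def N : ℕ → ℕ
  | 0 => 1
  | k + 1 => 3 ^ ((k + 8) ^ 2 * N k)

/-- The weights. -/
def A : ℕ → ℕ
  | 0 => 1
  | k + 1 => 3 ^ ((k + 8) * N k)

theorem N_succ (k : ℕ) : N (k + 1) = 3 ^ ((k + 8) ^ 2 * N k) := rfl

theorem A_succ (k : ℕ) : A (k + 1) = 3 ^ ((k + 8) * N k) := rfl

theorem N_pos (k : ℕ) : 0 < N k := by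
  cases k with
  | zero => exact one_pos
  | succ k => rw [N_succ]; positivity

theorem A_pos (k : ℕ) : 0 < A k := by
  cases k with
  | zero => exact one_pos
  | succ k => rw [A_succ]; positivity

theorem A_pow (k : ℕ) : A (k + 1) ^ (k + 8) = N (k + 1) := by
  rw [A_succ, N_succ, ← pow_mul]
  congr 1
  ring

theorem lt_three_pow (n : ℕ) : n < 3 ^ n := Nat.lt_pow_self (by norm_num)

theorem N_big (k : ℕ) : 16 * (k + 4) * 2 ^ (k + 1) * N k ≤ N (k + 1) := by
  rw [N_succ]
  have hN := N_pos k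
  have h1 : (k + 8) ^ 2 - 1 + N k ≤ (k + 8) ^ 2 * N k := by
    obtain ⟨x, hx⟩ : ∃ x, N k = x + 1 := ⟨N k - 1, by omega⟩
    rw [hx]
    have : 1 ≤ (k + 8) ^ 2 := Nat.one_le_pow _ _ (by omega)
    nlinarith [Nat.sub_add_cancel this]
  refine le_trans ?_ (Nat.pow_le_pow_right (by norm_num) h1)
  rw [pow_add 3 _ (N k)]
  apply Nat.mul_le_mul _ (lt_three_pow _).le
  have h2 : 3 + (k + 4) + (k + 1) ≤ (k + 8) ^ 2 - 1 := by
    have : (k + 8) ^ 2 = k ^ 2 + 16 * k + 64 := by ring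
    rw [this]
    have : 0 ≤ k ^ 2 := Nat.zero_le _
    omega
  refine le_trans ?_ (Nat.pow_le_pow_right (by norm_num) h2)
  rw [pow_add 3 (3 + (k + 4)) (k + 1), pow_add 3 3 (k + 4)]
  apply Nat.mul_le_mul
  · apply Nat.mul_le_mul (by norm_num) (lt_three_pow _).le
  · exact Nat.pow_le_pow_left (by norm_num) _

theorem two_N (k : ℕ) : 2 * N k ≤ N (k + 1) := by
  refine le_trans ?_ (N_big k)
  apply Nat.mul_le_mul_right
  have : 1 ≤ 2 ^ (k + 1) := Nat.one_le_two_pow
  nlinarith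

theorem N_strictMono : StrictMono N :=
  strictMono_nat_of_lt_succ fun k => by
    have := two_N k
    have := N_pos k
    omega

theorem le_N (k : ℕ) : k ≤ N k := N_strictMono.le_apply

theorem le_A (k : ℕ) : k ≤ A k := by
  cases k with
  | zero => exact Nat.zero_le _
  | succ k =>
    rw [A_succ]
    refine le_trans (lt_three_pow _).le (Nat.pow_le_pow_right (by norm_num) ?_)
    have := N_pos k
    nlinarith

theorem three_pow_ge (n : ℕ) : n * (n + 1) ≤ 3 ^ n := by
  induction n with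
  | zero => norm_num
  | succ n ih =>
    rcases n with _ | n
    · norm_num
    · rw [pow_succ]
      nlinarith

noncomputable section

/-- The modulus of the `l`-th term at radius `exp (-τ)`. -/
def t (b : ℕ → ℂ) (l : ℕ) (τ : ℝ) : ℝ := ‖b l‖ * Real.exp (-(τ * N l))

/-- Partial sums of moduli. -/
def S (b : ℕ → ℂ) (m : ℕ) (τ : ℝ) : ℝ := ∑ l ∈ Finset.range m, t b l τ

theorem t_nonneg (b : ℕ → ℂ) (l : ℕ) (τ : ℝ) : 0 ≤ t b l τ := by unfold t; positivity

theorem S_nonneg (b : ℕ → ℂ) (l : ℕ) (τ : ℝ) : 0 ≤ S b l τ :=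
  Finset.sum_nonneg fun _ _ => t_nonneg _ _ _

theorem t_le_S (b : ℕ → ℂ) (l m : ℕ) (h : l < m) (τ : ℝ) : t b l τ ≤ S b m τ :=
  Finset.single_le_sum (f := fun l => t b l τ) (fun _ _ => t_nonneg _ _ _) (Finset.mem_range.2 h)

/-- The bad set. -/
def bad (b : ℕ → ℂ) (m : ℕ) : Set ℝ :=
  {τ | t b m τ < 2 ^ (m + 3) * S b m τ ∧ S b m τ < 2 ^ (m + 3) * t b m τ}

theorem bad_diam (b : ℕ → ℂ) (j : ℕ) (τ₁ τ₂ : ℝ) (h1 : τ₁ ∈ bad b (j + 1)) (h2 : τ₂ ∈ bad b (j + 1))
    (h12 : τ₁ ≤ τ₂) : τ₂ - τ₁ ≤ 4 * (j + 4) / N (j + 1) := by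
  set Δ := τ₂ - τ₁ with hΔ
  have hΔ0 : 0 ≤ Δ := by linarith
  set H : ℝ := 2 ^ (j + 1 + 3) with hH
  have hH0 : 0 < H := by positivity
  have ht : t b (j + 1) τ₂ = t b (j + 1) τ₁ * Real.exp (-(Δ * N (j + 1))) := by
    unfold t
    rw [mul_assoc, ← Real.exp_add]
    congr 2
    rw [hΔ]
    ring
  have hS : S b (j + 1) τ₁ * Real.exp (-(Δ * N j)) ≤ S b (j + 1) τ₂ := by
    unfold S
    rw [Finset.sum_mul]
    apply Finset.sum_le_sum
    intro l hl
    unfold t
    rw [mul_assoc, ← Real.exp_add]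
    apply mul_le_mul_of_nonneg_left _ (norm_nonneg _)
    apply Real.exp_le_exp.2
    have h3 : (N l : ℝ) ≤ N j := by
      exact_mod_cast N_strictMono.monotone (Nat.lt_succ_iff.1 (Finset.mem_range.1 hl))
    have h4 : Δ * N l ≤ Δ * N j := mul_le_mul_of_nonneg_left h3 hΔ0
    have h5 : τ₂ * N l = τ₁ * N l + Δ * N l := by rw [hΔ]; ring
    linarith
  have hS1 : 0 < S b (j + 1) τ₁ := by
    by_contra hcon
    have h6 : S b (j + 1) τ₁ = 0 := le_antisymm (not_lt.1 hcon) (S_nonneg _ _ _)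
    have h7 := h1.1
    rw [h6, mul_zero] at h7
    exact absurd (t_nonneg b (j + 1) τ₁) (not_le.2 h7)
  have h8 : S b (j + 1) τ₁ * Real.exp (-(Δ * N j)) <
      H * (H * S b (j + 1) τ₁ * Real.exp (-(Δ * N (j + 1)))) := by
    calc _ ≤ S b (j + 1) τ₂ := hS
      _ < H * t b (j + 1) τ₂ := h2.2
      _ = H * (t b (j + 1) τ₁ * Real.exp (-(Δ * N (j + 1)))) := by rw [ht]
      _ ≤ _ := by
        apply mul_le_mul_of_nonneg_left _ hH0.le
        apply mul_le_mul_of_nonneg_right h1.1.le (Real.exp_pos _).le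
  have h9 : Real.exp (-(Δ * N j)) < H * H * Real.exp (-(Δ * N (j + 1))) := by
    have : S b (j + 1) τ₁ * Real.exp (-(Δ * N j)) <
      S b (j + 1) τ₁ * (H * H * Real.exp (-(Δ * N (j + 1)))) := by
      calc _ < _ := h8
        _ = _ := by ring
    exact lt_of_mul_lt_mul_left this hS1.le
  have h10 : Real.exp (Δ * (N (j + 1) - N j)) < H * H := by
    have := mul_lt_mul_of_pos_right h9 (Real.exp_pos (Δ * N (j + 1)))
    rw [← Real.exp_add, mul_assoc, ← Real.exp_add] at this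
    have e1 : -(Δ * N (j + 1)) + Δ * N (j + 1) = 0 := by ring
    have e2 : -(Δ * N j) + Δ * N (j + 1) = Δ * (N (j + 1) - N j) := by ring
    rw [e1, e2, Real.exp_zero, mul_one] at this
    exact this
  have h11 : H * H ≤ Real.exp (2 * (j + 4)) := by
    have h12 : (2 : ℝ) ≤ Real.exp 1 := by
      have := Real.add_one_le_exp (1 : ℝ)
      linarith
    have h13 : H ≤ Real.exp (j + 4) := by
      have : Real.exp ((j : ℝ) + 4) = Real.exp 1 ^ (j + 4) := by
        rw [← Real.exp_nat_mul]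
        push_cast
        ring_nf
      rw [this, hH]
      exact pow_le_pow_left₀ (by norm_num) h12 _
    calc H * H ≤ Real.exp (j + 4) * Real.exp (j + 4) :=
          mul_le_mul h13 h13 hH0.le (Real.exp_pos _).le
      _ = Real.exp (2 * (j + 4)) := by rw [← Real.exp_add]; ring_nf
  have h14 : Δ * (N (j + 1) - N j) < 2 * (j + 4) := Real.exp_lt_exp.1 (h10.trans_le h11)
  have h15 : (2 * N j : ℝ) ≤ N (j + 1) := by exact_mod_cast two_N j
  have h16 : (0 : ℝ) < N (j + 1) := by exact_mod_cast N_pos _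
  rw [le_div_iff₀ h16]
  nlinarith

theorem bad_volume (b : ℕ → ℂ) (j : ℕ) : volume (bad b (j + 1)) ≤
    ENNReal.ofReal (4 * (j + 4) / N (j + 1)) := by
  refine (Real.volume_le_diam _).trans ?_
  apply Metric.ediam_le
  intro x hx y hy
  rw [edist_dist]
  apply ENNReal.ofReal_le_ofReal
  rw [Real.dist_eq]
  rcases le_total x y with h | h
  · rw [abs_sub_comm, abs_of_nonneg (by linarith)]
    exact bad_diam b j x y hx hy h
  · rw [abs_of_nonneg (by linarith)]
    exact bad_diam b j y x hy hx h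

theorem exists_tau (b : ℕ → ℂ) (k : ℕ) : ∃ τ : ℝ, 1 / (2 * N k) ≤ τ ∧ τ ≤ 1 / N k ∧
    ∀ m, k < m → τ ∉ bad b m := by
  have hNk : (0 : ℝ) < N k := by exact_mod_cast N_pos _
  let B : Set ℝ := ⋃ i : ℕ, bad b (k + i + 1)
  have hB : volume B ≤ ENNReal.ofReal (1 / (4 * N k)) := by
    calc volume B ≤ ∑' i : ℕ, volume (bad b (k + i + 1)) := measure_iUnion_le _
      _ ≤ ∑' i : ℕ, ENNReal.ofReal (1 / (4 * N k) * (1 / 2) * (1 / 2) ^ i) := by
        apply ENNReal.tsum_le_tsum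
        intro i
        refine (bad_volume b (k + i)).trans (ENNReal.ofReal_le_ofReal ?_)
        have h1 : (16 * ((k + i : ℕ) + 4) * 2 ^ (k + i + 1) * N (k + i) : ℝ) ≤ N (k + i + 1) := by
          exact_mod_cast N_big (k + i)
        have h2 : (N k : ℝ) ≤ N (k + i) := by exact_mod_cast N_strictMono.monotone (Nat.le_add_right _ _)
        have h3 : (0 : ℝ) < N (k + i + 1) := by exact_mod_cast N_pos _
        rw [div_le_iff₀ h3]
        have h4 : (2 : ℝ) ^ (i + 1) ≤ 2 ^ (k + i + 1) := by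
          apply pow_le_pow_right₀ (by norm_num)
          omega
        have h5 : (16 * ((k + i : ℕ) + 4) * 2 ^ (i + 1) * N k : ℝ) ≤ N (k + i + 1) := by
          refine le_trans ?_ h1
          gcongr
        have h6 : (1 : ℝ) / (4 * N k) * (1 / 2) * (1 / 2) ^ i *
            (16 * ((k + i : ℕ) + 4) * 2 ^ (i + 1) * N k) = 4 * ((k + i : ℕ) + 4) := by
          have : (1 / 2 : ℝ) ^ i * 2 ^ (i + 1) = 2 := by
            rw [pow_succ, ← mul_assoc, ← mul_pow]
            norm_num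
          calc _ = ((1 / 2 : ℝ) ^ i * 2 ^ (i + 1)) * (2 * (((k + i : ℕ) : ℝ) + 4)) * (N k / N k) := by
                ring
            _ = _ := by rw [this, div_self hNk.ne']; ring
        rw [← h6]
        apply mul_le_mul_of_nonneg_left h5
        positivity
      _ = ENNReal.ofReal (∑' i : ℕ, (1 / (4 * N k) * (1 / 2) * (1 / 2) ^ i : ℝ)) := by
        rw [ENNReal.ofReal_tsum_of_nonneg]
        · intro i; positivity
        · exact summable_geometric_two.mul_left _
      _ = _ := by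
        rw [tsum_mul_left, tsum_geometric_two]
        congr 1
        ring
  have hlt : volume B < volume (Icc (1 / (2 * N k) : ℝ) (1 / N k)) := by
    refine hB.trans_lt ?_
    rw [Real.volume_Icc, ENNReal.ofReal_lt_ofReal_iff]
    · have : (1 : ℝ) / N k - 1 / (2 * N k) = 1 / (2 * N k) := by field_simp; norm_num
      rw [this]
      apply one_div_lt_one_div_of_lt (by positivity)
      linarith
    · have : (1 : ℝ) / N k - 1 / (2 * N k) = 1 / (2 * N k) := by field_simp; norm_num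
      rw [this]
      positivity
  obtain ⟨τ, hτ, hτB⟩ := not_subset.1 (fun h => absurd (measure_mono (μ := volume) h) (not_le.2 hlt))
  refine ⟨τ, hτ.1, hτ.2, ?_⟩
  intro m hm hbad
  apply hτB
  rw [mem_iUnion]
  refine ⟨m - k - 1, ?_⟩
  have : k + (m - k - 1) + 1 = m := by omega
  rwa [this]

/-- Dominance: at a good radius one term dominates all the others. -/
theorem dominance (b : ℕ → ℂ) (k : ℕ) (τ : ℝ) (hs : Summable fun l => t b l τ)
    (hgood : ∀ m, k < m → τ ∉ bad b m) (hk : 4 * S b k τ ≤ t b k τ) (hk0 : 0 < t b k τ) :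
    ∃ l, t b k τ ≤ t b l τ ∧ ∑' m, t b m τ ≤ 25 / 16 * t b l τ := by
  classical
  have h0 : Tendsto (fun l => t b l τ) atTop (𝓝 0) := hs.tendsto_atTop_zero
  obtain ⟨M, hM⟩ := eventually_atTop.1 (h0.eventually (gt_mem_nhds hk0))
  let P : ℕ → Prop := fun m => m = k ∨ (k < m ∧ 2 ^ (m + 3) * S b m τ ≤ t b m τ)
  have hPk : P k := Or.inl rfl
  have hPM : ∀ m, P m → m ≤ max k M := by
    intro m hm
    rcases hm with rfl | ⟨h1, h2⟩
    · exact le_max_left _ _
    · by_contra hcon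
      push Not at hcon
      have h3 := hM m (le_trans (le_max_right _ _) hcon.le)
      have h4 := t_le_S b k m h1 τ
      have h5 : (1 : ℝ) ≤ 2 ^ (m + 3) := one_le_pow₀ (by norm_num)
      have h6 : S b m τ ≤ 2 ^ (m + 3) * S b m τ := le_mul_of_one_le_left (S_nonneg _ _ _) h5
      linarith
  let l := Nat.findGreatest P (max k M)
  have hl : P l := Nat.findGreatest_spec (P := P) (le_max_left k M) hPk
  have hlk : k ≤ l := Nat.le_findGreatest (le_max_left k M) hPk
  have hgr : ∀ m, l < m → ¬ P m := by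
    intro m hm hPm
    exact absurd (Nat.le_findGreatest (hPM m hPm) hPm) (not_le.2 hm)
  have hl4 : 4 * S b l τ ≤ t b l τ := by
    rcases hl with h | ⟨h1, h2⟩
    · rw [h]; exact hk
    · refine le_trans ?_ h2
      apply mul_le_mul_of_nonneg_right _ (S_nonneg _ _ _)
      calc (4 : ℝ) = 2 ^ 2 := by norm_num
        _ ≤ 2 ^ (l + 3) := pow_le_pow_right₀ (by norm_num) (by omega)
  have hltk : t b k τ ≤ t b l τ := by
    rcases hlk.eq_or_lt with h | h
    · rw [← h]
    · have := t_le_S b k l h τ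
      have := S_nonneg b l τ
      linarith
  have hup : ∀ m, l < m → 2 ^ (m + 3) * t b m τ ≤ S b m τ := by
    intro m hm
    have h1 := hgr m hm
    have h2 : ¬ (2 ^ (m + 3) * S b m τ ≤ t b m τ) := fun h => h1 (Or.inr ⟨by omega, h⟩)
    have h3 := hgood m (by omega)
    by_contra hcon
    exact h3 ⟨not_le.1 h2, not_le.1 hcon⟩
  have hind : ∀ i, S b (l + 1 + i) τ ≤ (5 / 4 - (1 / 2) ^ (l + i + 2)) * S b (l + 1) τ := by
    intro i
    induction i with
    | zero =>
      have h1 : (1 / 2 : ℝ) ^ (l + 0 + 2) ≤ 1 / 4 := by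
        rw [pow_add]
        have : (1 / 2 : ℝ) ^ (l + 0) ≤ 1 := pow_le_one₀ (by norm_num) (by norm_num)
        nlinarith
      have := S_nonneg b (l + 1) τ
      rw [add_zero]
      nlinarith
    | succ i ih =>
      have e1 : S b (l + 1 + (i + 1)) τ = S b (l + 1 + i) τ + t b (l + 1 + i) τ := by
        unfold S
        rw [← add_assoc, Finset.sum_range_succ]
      have h1 := hup (l + 1 + i) (by omega)
      have h2 : t b (l + 1 + i) τ ≤ (1 / 2) ^ (l + 1 + i + 3) * S b (l + 1 + i) τ := by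
        have e2 : (1 / 2 : ℝ) ^ (l + 1 + i + 3) * 2 ^ (l + 1 + i + 3) = 1 := by
          rw [← mul_pow]; norm_num
        calc t b (l + 1 + i) τ = (1 / 2 : ℝ) ^ (l + 1 + i + 3) * (2 ^ (l + 1 + i + 3) *
              t b (l + 1 + i) τ) := by rw [← mul_assoc, e2, one_mul]
          _ ≤ _ := mul_le_mul_of_nonneg_left h1 (by positivity)
      set x : ℝ := (1 / 2) ^ (l + i + 2) with hx
      have hx0 : 0 < x := by positivity
      have e3 : (1 / 2 : ℝ) ^ (l + 1 + i + 3) = x / 4 := by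
        rw [hx, show l + 1 + i + 3 = (l + i + 2) + 2 by ring, pow_add]
        norm_num
        ring
      have e4 : (1 / 2 : ℝ) ^ (l + (i + 1) + 2) = x / 2 := by
        rw [hx, show l + (i + 1) + 2 = (l + i + 2) + 1 by ring, pow_add]
        norm_num
        ring
      rw [e3] at h2
      rw [e1, e4]
      have hS0 := S_nonneg b (l + 1) τ
      have hS1 := S_nonneg b (l + 1 + i) τ
      have h5 : S b (l + 1 + i) τ + t b (l + 1 + i) τ ≤ (1 + x / 4) * S b (l + 1 + i) τ := by linarith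
      refine h5.trans ?_
      have h6 : (1 + x / 4) * S b (l + 1 + i) τ ≤ (1 + x / 4) * ((5 / 4 - x) * S b (l + 1) τ) :=
        mul_le_mul_of_nonneg_left ih (by positivity)
      refine h6.trans ?_
      rw [← mul_assoc]
      apply mul_le_mul_of_nonneg_right _ hS0
      nlinarith
  have hlim : ∑' m, t b m τ ≤ 5 / 4 * S b (l + 1) τ := by
    have h1 := hs.hasSum.tendsto_sum_nat
    apply le_of_tendsto h1
    filter_upwards [eventually_ge_atTop (l + 1)] with n hn
    obtain ⟨i, rfl⟩ := Nat.exists_eq_add_of_le hn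
    refine (hind i).trans ?_
    apply mul_le_mul_of_nonneg_right _ (S_nonneg _ _ _)
    have : (0 : ℝ) < (1 / 2) ^ (l + i + 2) := by positivity
    linarith
  refine ⟨l, hltk, hlim.trans ?_⟩
  have e1 : S b (l + 1) τ = S b l τ + t b l τ := by unfold S; rw [Finset.sum_range_succ]
  rw [e1]
  linarith

/-- Lower bound on the circle. -/
theorem lower (b : ℕ → ℂ) (l : ℕ) (τ : ℝ) (hs : Summable fun l => t b l τ) (z : ℂ)
    (hz : ‖z‖ = Real.exp (-τ)) (hl : ∑' m, t b m τ ≤ 25 / 16 * t b l τ) :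
    7 / 16 * t b l τ ≤ ‖∑' m, b m * z ^ N m‖ := by
  classical
  have hn : ∀ m, ‖b m * z ^ N m‖ = t b m τ := by
    intro m
    rw [norm_mul, norm_pow, hz, ← Real.exp_nat_mul]
    unfold t
    congr 2
    ring
  have hs1 : Summable fun m => ‖b m * z ^ N m‖ := hs.congr fun m => (hn m).symm
  have hs2 : Summable fun m => b m * z ^ N m := hs1.of_norm
  rw [hs2.tsum_eq_add_tsum_ite l]
  have h1 : ‖∑' m, if m = l then 0 else b m * z ^ N m‖ ≤ ∑' m, if m = l then 0 else t b m τ := by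
    have h2 : ∀ m, ‖(if m = l then 0 else b m * z ^ N m : ℂ)‖ = if m = l then 0 else t b m τ := by
      intro m
      split_ifs
      · exact norm_zero
      · exact hn m
    have h3 : Summable fun m => ‖(if m = l then 0 else b m * z ^ N m : ℂ)‖ := by
      simp_rw [h2]
      apply Summable.of_nonneg_of_le _ _ hs
      · intro m; split_ifs; exacts [le_rfl, t_nonneg _ _ _]
      · intro m; split_ifs; exacts [t_nonneg _ _ _, le_rfl]
    refine (norm_tsum_le_tsum_norm h3).trans_eq ?_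
    exact tsum_congr h2
  have h4 := hs.tsum_eq_add_tsum_ite l
  have h5 := norm_sub_norm_le (b l * z ^ N l) (-(∑' m, if m = l then 0 else b m * z ^ N m))
  rw [norm_neg, sub_neg_eq_add, hn] at h5
  linarith

theorem annular (b : ℕ → ℂ) (hb : ∀ r : ℝ, 0 ≤ r → r < 1 → Summable fun l => ‖b l‖ * r ^ N l)
    (δ : ℝ) (hδ : 0 < δ) (hbig : ∀ m, ∃ k, m < k ∧ δ * A k ≤ ‖b k‖) (C : ℝ) (r₀ : ℝ)
    (hr₀ : r₀ < 1) :
    ∃ r : ℝ, r₀ < r ∧ r < 1 ∧ ∀ z : ℂ, ‖z‖ = r → C ≤ ‖∑' m, b m * z ^ N m‖ := by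
  -- growth of `b`
  obtain ⟨K, hK0, hK⟩ : ∃ K : ℝ, 0 ≤ K ∧ ∀ l, ‖b l‖ ≤ K * 3 ^ N l := by
    have hs := hb (1 / 3) (by norm_num) (by norm_num)
    refine ⟨∑' l, ‖b l‖ * (1 / 3 : ℝ) ^ N l, tsum_nonneg fun l => by positivity, ?_⟩
    intro l
    have h1 := hs.le_tsum l (fun j _ => by positivity)
    have h2 : ‖b l‖ * (1 / 3 : ℝ) ^ N l * 3 ^ N l = ‖b l‖ := by
      rw [mul_assoc, ← mul_pow]; norm_num
    calc ‖b l‖ = ‖b l‖ * (1 / 3 : ℝ) ^ N l * 3 ^ N l := h2.symm
      _ ≤ _ := mul_le_mul_of_nonneg_right h1 (by positivity)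
  obtain ⟨m₁, hm₁⟩ := exists_nat_ge (12 * K / δ)
  obtain ⟨m₂, hm₂⟩ := exists_nat_gt (1 / (1 - r₀))
  obtain ⟨m₃, hm₃⟩ := exists_nat_ge (48 / 7 * C / δ)
  obtain ⟨k, hkm, hkA⟩ := hbig (max m₁ (max m₂ m₃))
  have hk1 : m₁ < k := lt_of_le_of_lt (le_max_left _ _) hkm
  have hk2 : m₂ < k := lt_of_le_of_lt ((le_max_left _ _).trans (le_max_right _ _)) hkm
  have hk3 : m₃ < k := lt_of_le_of_lt ((le_max_right _ _).trans (le_max_right _ _)) hkm
  have hNk : (0 : ℝ) < N k := by exact_mod_cast N_pos _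
  obtain ⟨τ, hτ1, hτ2, hgood⟩ := exists_tau b k
  have hτ0 : 0 < τ := lt_of_lt_of_le (by positivity) hτ1
  have hr1 : Real.exp (-τ) < 1 := by
    rw [Real.exp_lt_one_iff]
    linarith
  have hs : Summable fun l => t b l τ := by
    refine (hb (Real.exp (-τ)) (Real.exp_pos _).le hr1).congr ?_
    intro l
    unfold t
    rw [← Real.exp_nat_mul]
    congr 2
    ring
  have htk : ‖b k‖ / 3 ≤ t b k τ := by
    unfold t
    rw [div_eq_mul_inv]
    apply mul_le_mul_of_nonneg_left _ (norm_nonneg _)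
    have h1 : τ * N k ≤ 1 := by rwa [le_div_iff₀ hNk] at hτ2
    have h2 : Real.exp 1 ≤ 3 := by
      have := Real.exp_one_lt_d9
      linarith
    calc (3 : ℝ)⁻¹ ≤ (Real.exp 1)⁻¹ := inv_anti₀ (Real.exp_pos _) h2
      _ = Real.exp (-1) := (Real.exp_neg 1).symm
      _ ≤ Real.exp (-(τ * N k)) := Real.exp_le_exp.2 (by linarith)
  have hbk : 0 < ‖b k‖ := lt_of_lt_of_le (mul_pos hδ (by exact_mod_cast A_pos k)) hkA
  have hSk : 4 * S b k τ ≤ t b k τ := by
    obtain ⟨n, rfl⟩ : ∃ n, k = n + 1 := ⟨k - 1, by omega⟩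
    have h1 : S b (n + 1) τ ≤ (n + 1) * (K * 3 ^ N n) := by
      unfold S
      calc ∑ l ∈ Finset.range (n + 1), t b l τ ≤ ∑ l ∈ Finset.range (n + 1), K * 3 ^ N n := by
            apply Finset.sum_le_sum
            intro l hl
            have h2 : t b l τ ≤ ‖b l‖ := by
              unfold t
              apply mul_le_of_le_one_right (norm_nonneg _)
              rw [Real.exp_le_one_iff]
              have : 0 ≤ τ * N l := by positivity
              linarith
            refine h2.trans ((hK l).trans ?_)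
            apply mul_le_mul_of_nonneg_left _ hK0
            apply pow_le_pow_right₀ (by norm_num)
            exact N_strictMono.monotone (Nat.lt_succ_iff.1 (Finset.mem_range.1 hl))
        _ = (n + 1) * (K * 3 ^ N n) := by
            rw [Finset.sum_const, Finset.card_range, nsmul_eq_mul]
            push_cast
            ring
    have h3 : 12 * K * (n + 1) ≤ δ * 3 ^ (n + 7) := by
      have h4 : 12 * K ≤ δ * n := by
        rw [div_le_iff₀ hδ] at hm₁
        have : (m₁ : ℝ) ≤ n := by exact_mod_cast Nat.lt_succ_iff.1 hk1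
        nlinarith
      have h5 : ((n : ℝ) * (n + 1)) ≤ 3 ^ n := by exact_mod_cast three_pow_ge n
      have h6 : (3 : ℝ) ^ n ≤ 3 ^ (n + 7) := pow_le_pow_right₀ (by norm_num) (by omega)
      calc 12 * K * (n + 1) ≤ δ * n * (n + 1) := by
            apply mul_le_mul_of_nonneg_right h4; positivity
        _ = δ * (n * (n + 1)) := by ring
        _ ≤ δ * 3 ^ (n + 7) := mul_le_mul_of_nonneg_left (h5.trans h6) hδ.le
    have h7 : (3 : ℝ) ^ (n + 7) * 3 ^ N n ≤ A (n + 1) := by
      rw [A_succ]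
      push_cast
      rw [← pow_add]
      apply pow_le_pow_right₀ (by norm_num)
      have := N_pos n
      nlinarith
    calc 4 * S b (n + 1) τ ≤ 4 * ((n + 1) * (K * 3 ^ N n)) := by linarith
      _ = (12 * K * (n + 1)) * 3 ^ N n / 3 := by ring
      _ ≤ (δ * 3 ^ (n + 7)) * 3 ^ N n / 3 := by
        apply div_le_div_of_nonneg_right _ (by norm_num)
        exact mul_le_mul_of_nonneg_right h3 (by positivity)
      _ = δ * (3 ^ (n + 7) * 3 ^ N n) / 3 := by ring
      _ ≤ δ * A (n + 1) / 3 := by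
        apply div_le_div_of_nonneg_right _ (by norm_num)
        exact mul_le_mul_of_nonneg_left h7 hδ.le
      _ ≤ ‖b (n + 1)‖ / 3 := by
        apply div_le_div_of_nonneg_right hkA (by norm_num)
      _ ≤ _ := htk
  obtain ⟨l, hl1, hl2⟩ := dominance b k τ hs hgood hSk (by linarith [div_pos hbk (by norm_num : (0:ℝ) < 3)])
  refine ⟨Real.exp (-τ), ?_, hr1, ?_⟩
  · have h1 := Real.add_one_le_exp (-τ)
    have h2 : (m₂ : ℝ) < N k := by
      exact_mod_cast lt_of_lt_of_le hk2 (le_N k)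
    have h3 : 1 / (1 - r₀) < N k := hm₂.trans h2
    have h4 : 0 < 1 - r₀ := by linarith
    rw [div_lt_iff₀ h4] at h3
    have h5 : τ * N k ≤ 1 := by rwa [le_div_iff₀ hNk] at hτ2
    have h6 : τ * N k < N k * (1 - r₀) := lt_of_le_of_lt h5 h3
    have h7 : τ < 1 - r₀ := by
      rw [mul_comm] at h6
      exact lt_of_mul_lt_mul_left h6 hNk.le
    linarith
  · intro z hz
    refine le_trans ?_ (lower b l τ hs z hz hl2)
    have h1 : (m₃ : ℝ) ≤ A k := by exact_mod_cast hk3.le.trans (le_A k)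
    have h2 : 48 / 7 * C / δ ≤ A k := hm₃.trans h1
    rw [div_le_iff₀ hδ] at h2
    linarith

end

end Pool.Agent.H8.SA
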