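import Pool.Agent.H8.SA.Coeff

set_option autoImplicit false

open Set Metric MeasureTheory Filter Function
open scoped Topology

namespace Pool.Agent.H8.SA

noncomputable section

/-- A rectangle in polar coordinates. -/
def Rc : Set (ℝ × ℝ) := Ioo (1 / 2 : ℝ) (3 / 4) ×ˢ Ioo (-Real.pi) Real.pi

theorem Rc_meas : MeasurableSet Rc := measurableSet_Ioo.prod measurableSet_Ioo

theorem Rc_vol : volume Rc = ENNReal.ofReal (Real.pi / 2) := by
  unfold Rc
  rw [Measure.volume_eq_prod, Measure.prod_prod, Real.volume_Ioo, Real.volume_Ioo,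
    ← ENNReal.ofReal_mul (by norm_num)]
  congr 1
  ring

theorem Rc_sub : Rc ⊆ polarCoord.target := by
  rintro ⟨x, y⟩ ⟨hx, hy⟩
  refine ⟨?_, hy⟩
  have := hx.1
  simp only [mem_Ioi] at *
  linarith

theorem norm_symm {q : ℝ × ℝ} (hq : q ∈ Rc) : ‖Complex.polarCoord.symm q‖ = q.1 := by
  rw [Complex.norm_polarCoord_symm, abs_of_pos]
  have := hq.1.1
  linarith

theorem symm_ball {q : ℝ × ℝ} (hq : q ∈ Rc) : Complex.polarCoord.symm q ∈ ball (0 : ℂ) 1 := by
  rw [mem_ball_zero_iff, norm_symm hq]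
  have := hq.1.2
  linarith

theorem symm_circle (x y : ℝ) : Complex.polarCoord.symm (x, y) = circleMap 0 x y := by
  rw [Complex.polarCoord_symm_apply, circleMap, Complex.exp_mul_I]
  simp

theorem symm_cont : Continuous (fun q : ℝ × ℝ => Complex.polarCoord.symm q) := by
  have : (fun q : ℝ × ℝ => Complex.polarCoord.symm q) =
      fun q : ℝ × ℝ => (q.1 : ℂ) * (Real.cos q.2 + Real.sin q.2 * Complex.I) := by
    funext q
    rw [Complex.polarCoord_symm_apply]
  rw [this]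
  fun_prop

/-- An auxiliary integral. -/
def J (p : ℝ) (h : ℂ → ℂ) : ENNReal :=
  ∫⁻ q in Rc, ENNReal.ofReal (‖h (Complex.polarCoord.symm q)‖ ^ p)

/-- The Bergman integral. -/
def I (p α : ℝ) (f : ℂ → ℂ) : ENNReal :=
  ∫⁻ z in ball (0 : ℂ) 1, ENNReal.ofReal (‖f z‖ ^ p * (1 - ‖z‖) ^ α / Real.pi)

theorem J_aem {h : ℂ → ℂ} (hh : DifferentiableOn ℂ h (ball 0 1)) {p : ℝ} (hp : 0 < p) :
    AEMeasurable (fun q => ENNReal.ofReal (‖h (Complex.polarCoord.symm q)‖ ^ p))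
      (volume.restrict Rc) := by
  apply AEMeasurable.ennreal_ofReal
  apply ContinuousOn.aemeasurable _ Rc_meas
  apply ContinuousOn.rpow_const
  · apply ContinuousOn.norm
    exact hh.continuousOn.comp symm_cont.continuousOn (fun q hq => symm_ball hq)
  · intro x _; exact Or.inr hp.le

theorem J_lower {h : ℂ → ℂ} (hh : DifferentiableOn ℂ h (ball 0 1)) {p : ℝ} (hp : 0 < p) :
    ENNReal.ofReal (Real.pi / 2 * ‖h 0‖ ^ p) ≤ J p h := by
  have hpi := Real.pi_pos
  have h1 : J p h = ∫⁻ x in Ioo (1 / 2 : ℝ) (3 / 4), ∫⁻ y in Ioo (-Real.pi) Real.pi,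
      ENNReal.ofReal (‖h (Complex.polarCoord.symm (x, y))‖ ^ p) := by
    have := J_aem hh hp
    unfold J Rc at *
    rw [Measure.volume_eq_prod] at *
    exact setLIntegral_prod _ this
  rw [h1]
  have h2 : ∀ x ∈ Ioo (1 / 2 : ℝ) (3 / 4), ENNReal.ofReal (2 * Real.pi * ‖h 0‖ ^ p) ≤
      ∫⁻ y in Ioo (-Real.pi) Real.pi,
      ENNReal.ofReal (‖h (Complex.polarCoord.symm (x, y))‖ ^ p) := by
    intro x hx
    have hx0 : 0 < x := by linarith [hx.1]
    have hx1 : x < 1 := by linarith [hx.2]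
    simp_rw [symm_circle]
    have hcont : Continuous (fun y : ℝ => ‖h (circleMap 0 x y)‖ ^ p) := by
      apply Continuous.rpow_const
      · apply Continuous.norm
        have h3 : ContinuousOn h (sphere 0 x) := hh.continuousOn.mono (by
          intro z hz
          rw [mem_ball_zero_iff]
          rw [mem_sphere_zero_iff_norm] at hz
          rw [hz]; exact hx1)
        have h4 : Continuous (fun y : ℝ => circleMap 0 x y) := continuous_circleMap 0 x
        exact h3.comp_continuous h4 (fun y => circleMap_mem_sphere 0 hx0.le y)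
      · intro y; exact Or.inr hp.le
    rw [← ofReal_integral_eq_lintegral_ofReal]
    · apply ENNReal.ofReal_le_ofReal
      rw [← integral_Ioc_eq_integral_Ioo,
        ← intervalIntegral.integral_of_le (by linarith : -Real.pi ≤ Real.pi)]
      have h3 := jensen_p hh hx0 hx1 hp
      rw [Real.circleAverage_eq_integral_add (-Real.pi),
        intervalIntegral.integral_comp_add_right (fun θ ↦ ‖h (circleMap 0 x θ)‖ ^ p)] at h3
      rw [zero_add, show 2 * Real.pi + -Real.pi = Real.pi by ring, smul_eq_mul] at h3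
      rw [inv_mul_eq_div, le_div_iff₀ (by positivity)] at h3
      linarith
    · exact (hcont.integrableOn_Icc (a := -Real.pi) (b := Real.pi)).mono_set Ioo_subset_Icc_self
    · exact Eventually.of_forall fun y => by positivity
  calc ENNReal.ofReal (Real.pi / 2 * ‖h 0‖ ^ p)
      = ∫⁻ x in Ioo (1 / 2 : ℝ) (3 / 4), ENNReal.ofReal (2 * Real.pi * ‖h 0‖ ^ p) := by
        rw [setLIntegral_const, Real.volume_Ioo, ← ENNReal.ofReal_mul (by positivity)]
        congr 1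
        ring
    _ ≤ _ := setLIntegral_mono' measurableSet_Ioo h2

theorem add_pow_le (x y p : ℝ) (hx : 0 ≤ x) (hy : 0 ≤ y) (hp : 0 < p) :
    (x + y) ^ p ≤ 2 ^ p * (x ^ p + y ^ p) := by
  have h2 : (0 : ℝ) ≤ 2 ^ p := by positivity
  have h3 : (0 : ℝ) ≤ x ^ p := by positivity
  have h4 : (0 : ℝ) ≤ y ^ p := by positivity
  rcases le_total x y with h | h
  · calc (x + y) ^ p ≤ (2 * y) ^ p := Real.rpow_le_rpow (by positivity) (by linarith) hp.le
      _ = 2 ^ p * y ^ p := Real.mul_rpow (by norm_num) hy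
      _ ≤ _ := by nlinarith
  · calc (x + y) ^ p ≤ (2 * x) ^ p := Real.rpow_le_rpow (by positivity) (by linarith) hp.le
      _ = 2 ^ p * x ^ p := Real.mul_rpow (by norm_num) hx
      _ ≤ _ := by nlinarith

theorem J_dslope {h : ℂ → ℂ} (hh : DifferentiableOn ℂ h (ball 0 1)) {p : ℝ} (hp : 0 < p) :
    J p (dslope h 0) ≤ ENNReal.ofReal (2 * 4 ^ p) * J p h := by
  have h4 : (0 : ℝ) ≤ 4 ^ p := by positivity
  have h1 : J p (dslope h 0) ≤ ∫⁻ q in Rc, (ENNReal.ofReal (4 ^ p) *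
      (ENNReal.ofReal (‖h (Complex.polarCoord.symm q)‖ ^ p) + ENNReal.ofReal (‖h 0‖ ^ p))) := by
    unfold J
    apply setLIntegral_mono' Rc_meas
    intro q hq
    rw [← ENNReal.ofReal_add (by positivity) (by positivity), ← ENNReal.ofReal_mul h4]
    apply ENNReal.ofReal_le_ofReal
    set z := Complex.polarCoord.symm q with hz
    have hzn : 1 / 2 ≤ ‖z‖ := by
      rw [hz, norm_symm hq]
      exact hq.1.1.le
    have hz0 : z ≠ 0 := by
      intro h0
      rw [h0, norm_zero] at hzn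
      norm_num at hzn
    rw [dslope_of_ne _ hz0, slope_def_field, norm_div, sub_zero]
    have h5 : ‖h z - h 0‖ / ‖z‖ ≤ 2 * (‖h z‖ + ‖h 0‖) := by
      rw [div_le_iff₀ (norm_pos_iff.2 hz0)]
      have := norm_sub_le (h z) (h 0)
      nlinarith [norm_nonneg (h z), norm_nonneg (h 0)]
    calc (‖h z - h 0‖ / ‖z‖) ^ p ≤ (2 * (‖h z‖ + ‖h 0‖)) ^ p :=
          Real.rpow_le_rpow (by positivity) h5 hp.le
      _ = 2 ^ p * (‖h z‖ + ‖h 0‖) ^ p := Real.mul_rpow (by norm_num) (by positivity)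
      _ ≤ 2 ^ p * (2 ^ p * (‖h z‖ ^ p + ‖h 0‖ ^ p)) := by
        apply mul_le_mul_of_nonneg_left (add_pow_le _ _ _ (norm_nonneg _) (norm_nonneg _) hp)
        positivity
      _ = 4 ^ p * (‖h z‖ ^ p + ‖h 0‖ ^ p) := by
        rw [← mul_assoc, ← Real.mul_rpow (by norm_num) (by norm_num)]
        norm_num
  refine h1.trans ?_
  have e7 : ENNReal.ofReal (‖h 0‖ ^ p) * ENNReal.ofReal (Real.pi / 2) =
      ENNReal.ofReal (Real.pi / 2 * ‖h 0‖ ^ p) := by
    rw [← ENNReal.ofReal_mul (by positivity), mul_comm]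
  have e8 : ENNReal.ofReal (2 * 4 ^ p) = ENNReal.ofReal 2 * ENNReal.ofReal (4 ^ p) :=
    ENNReal.ofReal_mul (by norm_num)
  rw [lintegral_const_mul' _ _ ENNReal.ofReal_ne_top, lintegral_add_right _ measurable_const,
    setLIntegral_const, Rc_vol, e7, e8]
  have h6 := J_lower hh hp
  calc ENNReal.ofReal (4 ^ p) * (J p h + ENNReal.ofReal (Real.pi / 2 * ‖h 0‖ ^ p))
      ≤ ENNReal.ofReal (4 ^ p) * (J p h + J p h) := by gcongr
    _ = _ := by
      rw [← two_mul, ENNReal.ofReal_ofNat]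
      ring

theorem J_iter {h : ℂ → ℂ} (hh : DifferentiableOn ℂ h (ball 0 1)) {p : ℝ} (hp : 0 < p) (n : ℕ) :
    J p ((swap dslope (0 : ℂ))^[n] h) ≤ ENNReal.ofReal ((2 * 4 ^ p) ^ n) * J p h := by
  induction n with
  | zero => simp
  | succ n ih =>
    rw [iterate_succ_apply']
    refine (J_dslope (dslope_diff hh n) hp).trans ?_
    have e : ENNReal.ofReal ((2 * 4 ^ p) ^ (n + 1)) =
        ENNReal.ofReal (2 * 4 ^ p) * ENNReal.ofReal ((2 * 4 ^ p) ^ n) := by
      rw [pow_succ', ENNReal.ofReal_mul (by positivity)]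
    rw [e, mul_assoc]
    gcongr

/-- A positive constant. -/
def kap (α : ℝ) : ℝ := 1 / (2 * Real.pi) * (1 / 4) ^ |α|

theorem kap_pos (α : ℝ) : 0 < kap α := by
  unfold kap
  have := Real.pi_pos
  positivity

theorem J_berg (p α : ℝ) (h : ℂ → ℂ) : ENNReal.ofReal (kap α) * J p h ≤ I p α h := by
  have hpi := Real.pi_pos
  unfold I J
  rw [← lintegral_indicator measurableSet_ball, ← Complex.lintegral_comp_polarCoord_symm,
    ← lintegral_const_mul' _ _ ENNReal.ofReal_ne_top]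
  refine le_trans ?_ (lintegral_mono_set Rc_sub)
  apply setLIntegral_mono' Rc_meas
  intro q hq
  rw [indicator_of_mem (symm_ball hq), smul_eq_mul, norm_symm hq,
    ← ENNReal.ofReal_mul (kap_pos α).le, ← ENNReal.ofReal_mul (by linarith [hq.1.1])]
  apply ENNReal.ofReal_le_ofReal
  have hx1 : 1 / 2 < q.1 := hq.1.1
  have hx2 : q.1 < 3 / 4 := hq.1.2
  have h1 : (1 / 4 : ℝ) ^ |α| ≤ (1 - q.1) ^ α := by
    calc (1 / 4 : ℝ) ^ |α| ≤ (1 - q.1) ^ |α| :=
          Real.rpow_le_rpow (by norm_num) (by linarith) (abs_nonneg _)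
      _ ≤ (1 - q.1) ^ α :=
          Real.rpow_le_rpow_of_exponent_ge (by linarith) (by linarith) (le_abs_self α)
  unfold kap
  set x := ‖h (Complex.polarCoord.symm q)‖ ^ p with hx
  have hx0 : 0 ≤ x := by positivity
  have h0 : 0 ≤ (1 / 4 : ℝ) ^ |α| := by positivity
  have e1 : 1 / (2 * Real.pi) * (1 / 4) ^ |α| * x = (1 / 2) * ((1 / 4) ^ |α| * x / Real.pi) := by
    field_simp
  rw [e1]
  apply mul_le_mul hx1.le _ (by positivity) (by linarith)
  apply div_le_div_of_nonneg_right _ hpi.le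
  rw [mul_comm]
  exact mul_le_mul_of_nonneg_left h1 hx0

theorem a_bound {p : ℝ} (hp : 0 < p) (α : ℝ) (n : ℕ) : ∃ c : ℝ, 0 < c ∧ ∀ h ∈ HD,
    ENNReal.ofReal (c * ‖a n h‖ ^ p) ≤ I p α h := by
  have hpi := Real.pi_pos
  have hk := kap_pos α
  have hD : (0 : ℝ) < (2 * 4 ^ p) ^ n := by positivity
  refine ⟨kap α * (Real.pi / 2) / (2 * 4 ^ p) ^ n, by positivity, ?_⟩
  intro h hh
  have h1 := J_lower (dslope_diff hh.1 n) hp
  rw [a_eq_dslope hh] at h1
  have h2 := h1.trans (J_iter hh.1 hp n)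
  refine le_trans ?_ (J_berg p α h)
  have e1 : kap α * (Real.pi / 2) / (2 * 4 ^ p) ^ n * ‖a n h‖ ^ p =
      kap α * (((2 * 4 ^ p) ^ n)⁻¹ * (Real.pi / 2 * ‖a n h‖ ^ p)) := by
    field_simp
  rw [e1, ENNReal.ofReal_mul hk.le, ENNReal.ofReal_mul (by positivity)]
  gcongr
  calc ENNReal.ofReal (((2 * 4 ^ p) ^ n)⁻¹) * ENNReal.ofReal (Real.pi / 2 * ‖a n h‖ ^ p)
      ≤ ENNReal.ofReal (((2 * 4 ^ p) ^ n)⁻¹) * (ENNReal.ofReal ((2 * 4 ^ p) ^ n) * J p h) := by gcongr
    _ = J p h := by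
      rw [← mul_assoc, ← ENNReal.ofReal_mul (by positivity), inv_mul_cancel₀ hD.ne',
        ENNReal.ofReal_one, one_mul]

theorem e_pos {p : ℝ} (hp : 0 < p) : 0 < min 1 (1 / p) := lt_min one_pos (by positivity)

theorem a_small {p : ℝ} (hp : 0 < p) (α : ℝ) (n : ℕ) (ε : ℝ) (hε : 0 < ε) :
    ∃ δ : ENNReal, 0 < δ ∧ ∀ h ∈ HD, bergNorm p α h < δ → ‖a n h‖ < ε := by
  obtain ⟨c, hc, h1⟩ := a_bound hp α n
  refine ⟨(ENNReal.ofReal (c * ε ^ p)) ^ (min 1 (1 / p)), ?_, ?_⟩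
  · apply ENNReal.rpow_pos
    · rw [ENNReal.ofReal_pos]; positivity
    · exact ENNReal.ofReal_ne_top
  · intro h hh hlt
    by_contra hcon
    push Not at hcon
    refine absurd hlt (not_lt.2 ?_)
    unfold bergNorm
    apply ENNReal.rpow_le_rpow _ (e_pos hp).le
    refine le_trans ?_ (h1 h hh)
    apply ENNReal.ofReal_le_ofReal
    apply mul_le_mul_of_nonneg_left _ hc.le
    exact Real.rpow_le_rpow hε.le hcon hp.le

theorem berg_iff {p : ℝ} (hp : 0 < p) (α : ℝ) (f : ℂ → ℂ) : bergNorm p α f < ⊤ ↔ I p α f < ⊤ := by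
  unfold bergNorm I
  exact ENNReal.rpow_lt_top_iff_of_pos (e_pos hp)

theorem I_add {p : ℝ} (hp : 0 < p) (α : ℝ) {f g : ℂ → ℂ} (hf : f ∈ HD) (h1 : I p α f < ⊤)
    (h2 : I p α g < ⊤) : I p α (f + g) < ⊤ := by
  have hpi := Real.pi_pos
  have h3 : I p α (f + g) ≤ ∫⁻ z in ball (0 : ℂ) 1, ENNReal.ofReal (2 ^ p) *
      (ENNReal.ofReal (‖f z‖ ^ p * (1 - ‖z‖) ^ α / Real.pi) +
        ENNReal.ofReal (‖g z‖ ^ p * (1 - ‖z‖) ^ α / Real.pi)) := by
    unfold I
    apply setLIntegral_mono' measurableSet_ball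
    intro z hz
    rw [mem_ball_zero_iff] at hz
    have h0 : 0 ≤ 1 - ‖z‖ := by linarith
    rw [← ENNReal.ofReal_add (by positivity) (by positivity), ← ENNReal.ofReal_mul (by positivity)]
    apply ENNReal.ofReal_le_ofReal
    have h4 : ‖(f + g) z‖ ^ p ≤ 2 ^ p * (‖f z‖ ^ p + ‖g z‖ ^ p) := by
      refine le_trans ?_ (add_pow_le _ _ _ (norm_nonneg _) (norm_nonneg _) hp)
      exact Real.rpow_le_rpow (norm_nonneg _) (norm_add_le _ _) hp.le
    calc ‖(f + g) z‖ ^ p * (1 - ‖z‖) ^ α / Real.pi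
        ≤ (2 ^ p * (‖f z‖ ^ p + ‖g z‖ ^ p)) * (1 - ‖z‖) ^ α / Real.pi := by gcongr
      _ = _ := by ring
  refine h3.trans_lt ?_
  rw [lintegral_const_mul' _ _ ENNReal.ofReal_ne_top, lintegral_add_left']
  · exact ENNReal.mul_lt_top ENNReal.ofReal_lt_top (ENNReal.add_lt_top.2 ⟨h1, h2⟩)
  · apply AEMeasurable.ennreal_ofReal
    apply AEMeasurable.div_const
    apply AEMeasurable.mul
    · apply ContinuousOn.aemeasurable _ measurableSet_ball
      apply ContinuousOn.rpow_const hf.1.continuousOn.norm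
      intro x _; exact Or.inr hp.le
    · fun_prop

theorem I_smul {p : ℝ} (α : ℝ) (c : ℂ) {f : ℂ → ℂ} (h1 : I p α f < ⊤) :
    I p α (c • f) < ⊤ := by
  have h3 : I p α (c • f) = ∫⁻ z in ball (0 : ℂ) 1, ENNReal.ofReal (‖c‖ ^ p) *
      ENNReal.ofReal (‖f z‖ ^ p * (1 - ‖z‖) ^ α / Real.pi) := by
    unfold I
    congr 1
    funext z
    rw [← ENNReal.ofReal_mul (by positivity)]
    congr 1
    rw [Pi.smul_apply, smul_eq_mul, norm_mul, Real.mul_rpow (norm_nonneg _) (norm_nonneg _)]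
    ring
  rw [h3, lintegral_const_mul' _ _ ENNReal.ofReal_ne_top]
  exact ENNReal.mul_lt_top ENNReal.ofReal_lt_top h1

theorem I_fin {p : ℝ} (hp : 0 < p) {α : ℝ} (hα : -1 < α) (f : ℂ → ℂ) (C : ℝ) (hC : 0 ≤ C)
    (h : ∀ z ∈ ball (0 : ℂ) 1, ‖f z‖ ≤ C * (1 - ‖z‖) ^ (-((α + 1) / (2 * p)))) : I p α f < ⊤ := by
  have hpi := Real.pi_pos
  have h1 : I p α f ≤ ∫⁻ z in ball (0 : ℂ) 1,
      ENNReal.ofReal (C ^ p / Real.pi * (1 - ‖z‖) ^ ((α - 1) / 2)) := by
    unfold I
    apply setLIntegral_mono' measurableSet_ball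
    intro z hz
    apply ENNReal.ofReal_le_ofReal
    have hz' := hz
    rw [mem_ball_zero_iff] at hz'
    have h0 : 0 < 1 - ‖z‖ := by linarith
    have h2 : ‖f z‖ ^ p ≤ C ^ p * (1 - ‖z‖) ^ (-((α + 1) / 2)) := by
      refine (Real.rpow_le_rpow (norm_nonneg _) (h z hz) hp.le).trans_eq ?_
      rw [Real.mul_rpow hC (by positivity), ← Real.rpow_mul h0.le]
      congr 2
      field_simp
    calc ‖f z‖ ^ p * (1 - ‖z‖) ^ α / Real.pi
        ≤ (C ^ p * (1 - ‖z‖) ^ (-((α + 1) / 2))) * (1 - ‖z‖) ^ α / Real.pi := by gcongr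
      _ = C ^ p / Real.pi * ((1 - ‖z‖) ^ (-((α + 1) / 2)) * (1 - ‖z‖) ^ α) := by ring
      _ = _ := by
        rw [← Real.rpow_add h0]
        congr 2
        ring
  refine h1.trans_lt ?_
  apply Integrable.lintegral_lt_top
  apply Integrable.const_mul
  have h3 : IntegrableOn (fun z : ℂ => (fun y : ℝ => (1 - y) ^ ((α - 1) / 2)) ‖z‖) (ball (0 : ℂ) 1)
      volume := by
    refine (integrableOn_fun_norm_addHaar (E := ℂ) volume
      (f := fun y : ℝ => (1 - y) ^ ((α - 1) / 2))).2 ?_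
    rw [Complex.finrank_real_complex]
    have h4 : IntervalIntegrable (fun x : ℝ => x ^ ((α - 1) / 2)) volume 0 1 :=
      intervalIntegral.intervalIntegrable_rpow' (by linarith)
    have h5 := h4.comp_sub_left 1
    rw [sub_zero, sub_self] at h5
    have h6 : IntegrableOn (fun x : ℝ => (1 - x) ^ ((α - 1) / 2)) (Ioo 0 1) volume := by
      rw [← intervalIntegrable_iff_integrableOn_Ioo_of_le zero_le_one]
      exact h5.symm
    apply Integrable.mono' h6
    · exact (by fun_prop : Measurable fun y : ℝ => y ^ (2 - 1) •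
        (1 - y) ^ ((α - 1) / 2)).aestronglyMeasurable
    · rw [ae_restrict_iff' measurableSet_Ioo]
      apply Eventually.of_forall
      intro x hx
      have h7 : 0 ≤ 1 - x := by linarith [hx.2]
      rw [norm_smul, Real.norm_of_nonneg (by positivity : 0 ≤ (1 - x) ^ ((α - 1) / 2))]
      apply mul_le_of_le_one_left (by positivity)
      simp only [Nat.reduceSub, pow_one]
      rw [Real.norm_of_nonneg hx.1.le]
      exact hx.2.le
  exact h3

end

end Pool.Agent.H8.SA
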