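import Pool.Agent.H8.SA.Defs

set_option autoImplicit false

open Set Metric MeasureTheory Filter Function
open scoped Topology

namespace Pool.Agent.H8.SA

noncomputable section

theorem HD_add {f g : ℂ → ℂ} (hf : f ∈ HD) (hg : g ∈ HD) : f + g ∈ HD :=
  ⟨hf.1.add hg.1, fun z hz => by simp [hf.2 z hz, hg.2 z hz]⟩

theorem HD_smul (c : ℂ) {f : ℂ → ℂ} (hf : f ∈ HD) : c • f ∈ HD :=
  ⟨hf.1.const_smul c, fun z hz => by simp [hf.2 z hz]⟩

theorem HD_sub {f g : ℂ → ℂ} (hf : f ∈ HD) (hg : g ∈ HD) : f - g ∈ HD :=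
  ⟨hf.1.sub hg.1, fun z hz => by simp [hf.2 z hz, hg.2 z hz]⟩

theorem HD_zero : (0 : ℂ → ℂ) ∈ HD := ⟨differentiableOn_const 0, fun _ _ => rfl⟩

/-- Taylor coefficients. -/
def a (n : ℕ) (f : ℂ → ℂ) : ℂ := iteratedDeriv n f 0 / n.factorial

theorem hs_congr {u v : ℕ → ℂ} {x y : ℂ} (h : HasSum u x) (h1 : ∀ n, v n = u n) (h2 : y = x) :
    HasSum v y := by
  rw [h2, show v = u from funext h1]
  exact h

theorem hasSum_a {f : ℂ → ℂ} (hf : f ∈ HD) (z : ℂ) (hz : z ∈ ball (0 : ℂ) 1) :
    HasSum (fun n => a n f * z ^ n) (f z) := by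
  have h1 : DifferentiableOn ℂ f (ball 0 ((1 : NNReal) : ℝ)) := by simpa using hf.1
  have hz' : z ∈ ball (0 : ℂ) ((1 : NNReal) : ℝ) := by simpa using hz
  have h := Complex.hasSum_taylorSeries_on_ball h1 hz'
  refine hs_congr h (fun n => ?_) rfl
  unfold a
  simp only [sub_zero, smul_eq_mul]
  ring

theorem fps {f : ℂ → ℂ} (hf : f ∈ HD) : HasFPowerSeriesAt f
    (FormalMultilinearSeries.ofScalars ℂ (fun n => a n f)) 0 := by
  have h : AnalyticAt ℂ f 0 :=
    hf.1.analyticAt (isOpen_ball.mem_nhds (mem_ball_self one_pos))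
  exact h.hasFPowerSeriesAt

theorem a_unique {f : ℂ → ℂ} (hf : f ∈ HD) (c : ℕ → ℂ)
    (h : ∀ z ∈ ball (0 : ℂ) 1, HasSum (fun n => c n * z ^ n) (f z)) (n : ℕ) : a n f = c n := by
  have h1 : HasFPowerSeriesAt f (FormalMultilinearSeries.ofScalars ℂ c) 0 := by
    rw [hasFPowerSeriesAt_iff]
    filter_upwards [isOpen_ball.mem_nhds (mem_ball_self (x := (0 : ℂ)) one_pos)] with z hz
    simpa [FormalMultilinearSeries.coeff_ofScalars, mul_comm] using h z hz
  have h2 := h1.eq_formalMultilinearSeries (fps hf)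
  have h3 := congrArg (fun p => p.coeff n) h2
  simpa [FormalMultilinearSeries.coeff_ofScalars] using h3.symm

theorem a_add (n : ℕ) {f g : ℂ → ℂ} (hf : f ∈ HD) (hg : g ∈ HD) : a n (f + g) = a n f + a n g := by
  apply a_unique (HD_add hf hg) (fun n => a n f + a n g)
  intro z hz
  exact hs_congr ((hasSum_a hf z hz).add (hasSum_a hg z hz)) (fun n => by ring) rfl

theorem a_smul (n : ℕ) (c : ℂ) {f : ℂ → ℂ} (hf : f ∈ HD) : a n (c • f) = c * a n f := by
  apply a_unique (HD_smul c hf) (fun n => c * a n f)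
  intro z hz
  exact hs_congr ((hasSum_a hf z hz).mul_left c) (fun n => by ring) rfl

theorem a_sub (n : ℕ) {f g : ℂ → ℂ} (hf : f ∈ HD) (hg : g ∈ HD) : a n (f - g) = a n f - a n g := by
  apply a_unique (HD_sub hf hg) (fun n => a n f - a n g)
  intro z hz
  exact hs_congr ((hasSum_a hf z hz).sub (hasSum_a hg z hz)) (fun n => by ring) rfl

theorem eq_zero_of_a {f : ℂ → ℂ} (hf : f ∈ HD) (h : ∀ n, a n f = 0) : f = 0 := by
  funext z
  by_cases hz : z ∈ ball (0 : ℂ) 1
  · have h1 := hasSum_a hf z hz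
    simp only [h, zero_mul] at h1
    exact h1.unique hasSum_zero
  · exact hf.2 z hz

theorem a_eq_dslope {f : ℂ → ℂ} (hf : f ∈ HD) (n : ℕ) :
    ((swap dslope (0 : ℂ))^[n] f) 0 = a n f := by
  have h := (fps hf).has_fpower_series_iterate_dslope_fslope n
  have h2 := h.coeff_zero (fun _ => 1)
  rw [← h2]
  have h3 := FormalMultilinearSeries.coeff_iterate_fslope
    (p := FormalMultilinearSeries.ofScalars ℂ (fun n => a n f)) n 0
  rw [zero_add, FormalMultilinearSeries.coeff_ofScalars] at h3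
  rw [← h3]
  rfl

theorem dslope_diff {f : ℂ → ℂ} (hf : DifferentiableOn ℂ f (ball 0 1)) (n : ℕ) :
    DifferentiableOn ℂ ((swap dslope (0 : ℂ))^[n] f) (ball 0 1) := by
  induction n with
  | zero => exact hf
  | succ n ih =>
    rw [iterate_succ_apply']
    exact (Complex.differentiableOn_dslope (isOpen_ball.mem_nhds (mem_ball_self one_pos))).2 ih

/-- `|h(0)|^p` is at most the circle average of `|h|^p`. -/
theorem jensen_p {h : ℂ → ℂ} (hh : DifferentiableOn ℂ h (ball 0 1)) {ρ : ℝ} (hρ0 : 0 < ρ)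
    (hρ1 : ρ < 1) {p : ℝ} (hp : 0 < p) :
    ‖h 0‖ ^ p ≤ Real.circleAverage (fun z => ‖h z‖ ^ p) 0 ρ := by
  have hsub : closedBall (0 : ℂ) |ρ| ⊆ ball 0 1 := by
    rw [abs_of_pos hρ0]
    exact closedBall_subset_ball hρ1
  have hsph : sphere (0 : ℂ) |ρ| ⊆ ball 0 1 := sphere_subset_closedBall.trans hsub
  have hci : CircleIntegrable (fun z => ‖h z‖ ^ p) 0 ρ := by
    apply ContinuousOn.circleIntegrable hρ0.le
    apply ContinuousOn.rpow_const
    · exact (hh.continuousOn.norm).mono (by rw [abs_of_pos hρ0] at hsph; exact hsph)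
    · intro x _; exact Or.inr hp.le
  rcases eq_or_ne (h 0) 0 with h0 | h0
  · rw [h0, norm_zero, Real.zero_rpow hp.ne']
    apply Real.circleAverage_nonneg_of_nonneg
    intro z _
    positivity
  have han : AnalyticOnNhd ℂ h (ball 0 1) := fun z hz => hh.analyticAt (isOpen_ball.mem_nhds hz)
  have hm : 0 < ‖h 0‖ := norm_pos_iff.2 h0
  have hJ := (han.mono hsub).circleAverage_log_norm hρ0.ne' h0
  have hlog : Real.log ‖h 0‖ ≤ Real.circleAverage (fun z => Real.log ‖h z‖) 0 ρ := by
    rw [hJ]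
    have : 0 ≤ ∑ᶠ u, (MeromorphicOn.divisor h (closedBall 0 |ρ|) u : ℝ) * Real.log (ρ * ‖0 - u‖⁻¹) := by
      apply finsum_nonneg
      intro u
      by_cases hu : u ∈ closedBall (0 : ℂ) |ρ|
      · apply mul_nonneg
        · exact_mod_cast MeromorphicOn.AnalyticOnNhd.divisor_nonneg (han.mono hsub) u
        · rcases eq_or_ne u 0 with rfl | hu0
          · simp
          · apply Real.log_nonneg
            rw [zero_sub, norm_neg, ← div_eq_mul_inv, le_div_iff₀ (norm_pos_iff.2 hu0), one_mul]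
            rw [mem_closedBall_zero_iff, abs_of_pos hρ0] at hu
            exact hu
      · rw [Function.locallyFinsuppWithin.apply_eq_zero_of_notMem _ hu]
        simp
    linarith
  have hli : CircleIntegrable (fun z => Real.log ‖h z‖) 0 ρ :=
    (han.mono hsph).meromorphicOn.circleIntegrable_log_norm
  set m := ‖h 0‖ with hmdef
  -- the comparison function
  have hci2 : CircleIntegrable (fun z => m ^ p * (1 + p * (Real.log ‖h z‖ - Real.log m))) 0 ρ := by
    have h1 : CircleIntegrable (fun _ : ℂ => (1 - p * Real.log m)) (0 : ℂ) ρ :=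
      circleIntegrable_const _ _ _
    have h2 : CircleIntegrable (fun z => p • Real.log ‖h z‖) 0 ρ := hli.const_smul
    have h3 := (h1.add h2).const_smul (a := m ^ p)
    have e : (fun z => m ^ p * (1 + p * (Real.log ‖h z‖ - Real.log m))) =
        m ^ p • ((fun _ => 1 - p * Real.log m) + fun z => p • Real.log ‖h z‖) := by
      funext z
      simp only [Pi.smul_apply, Pi.add_apply, smul_eq_mul]
      ring
    rw [e]
    exact h3
  have hle : Real.circleAverage (fun z => m ^ p * (1 + p * (Real.log ‖h z‖ - Real.log m))) 0 ρ ≤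
      Real.circleAverage (fun z => ‖h z‖ ^ p) 0 ρ := by
    unfold Real.circleAverage
    apply smul_le_smul_of_nonneg_left _ (by positivity)
    apply intervalIntegral.integral_mono_ae_restrict (by positivity) hci2 hci
    have h4 : ∀ᶠ x in codiscreteWithin (ball (0 : ℂ) 1), h x ≠ 0 := by
      rcases han.eqOn_zero_or_eventually_ne_zero_of_preconnected
        (convex_ball _ _).isPreconnected with h5 | h5
      · exact absurd (h5 (mem_ball_self one_pos)) h0
      · exact h5
    have h6 : ∀ᶠ x in codiscreteWithin (sphere (0 : ℂ) |ρ|), h x ≠ 0 := codiscreteWithin_mono hsph h4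
    have h7 : ∀ᶠ θ in codiscrete ℝ, h (circleMap 0 ρ θ) ≠ 0 :=
      circleMap_preimage_codiscrete hρ0.ne' h6
    have h8 : ∀ᶠ θ in codiscreteWithin (Icc (0 : ℝ) (2 * Real.pi)), h (circleMap 0 ρ θ) ≠ 0 :=
      codiscreteWithin_mono (subset_univ _) h7
    have h9 := ae_restrict_le_codiscreteWithin (μ := volume) measurableSet_Icc h8
    filter_upwards [h9] with θ hθ
    have hx : 0 < ‖h (circleMap 0 ρ θ)‖ := norm_pos_iff.2 hθ
    set x := ‖h (circleMap 0 ρ θ)‖
    have h10 : x ^ p = m ^ p * Real.exp (p * (Real.log x - Real.log m)) := by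
      rw [Real.rpow_def_of_pos hx, Real.rpow_def_of_pos hm, ← Real.exp_add]
      congr 1
      ring
    rw [h10]
    apply mul_le_mul_of_nonneg_left _ (by positivity)
    have := Real.add_one_le_exp (p * (Real.log x - Real.log m))
    linarith
  refine le_trans ?_ hle
  have hav : Real.circleAverage (fun z => m ^ p * (1 + p * (Real.log ‖h z‖ - Real.log m))) 0 ρ =
      m ^ p * (1 + p * (Real.circleAverage (fun z => Real.log ‖h z‖) 0 ρ - Real.log m)) := by
    have h1 : CircleIntegrable (fun _ : ℂ => (1 - p * Real.log m)) (0 : ℂ) ρ :=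
      circleIntegrable_const _ _ _
    have h2 : CircleIntegrable (fun z => p • Real.log ‖h z‖) 0 ρ := hli.const_smul
    have e1 : (fun z => m ^ p * (1 + p * (Real.log ‖h z‖ - Real.log m))) =
        (fun z => (m ^ p) • ((1 - p * Real.log m) + p • Real.log ‖h z‖)) := by
      funext z
      simp only [smul_eq_mul]
      ring
    rw [e1, Real.circleAverage_fun_smul, Real.circleAverage_fun_add h1 h2,
      Real.circleAverage_fun_smul, Real.circleAverage_const]
    simp only [smul_eq_mul]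
    ring
  rw [hav]
  have : 1 ≤ 1 + p * (Real.circleAverage (fun z => Real.log ‖h z‖) 0 ρ - Real.log m) := by
    have := mul_nonneg hp.le (sub_nonneg.2 hlog)
    linarith
  exact le_mul_of_one_le_right (by positivity) this

end

end Pool.Agent.H8.SA
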