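import Mathlib

set_option autoImplicit false

open Set Metric MeasureTheory

namespace Pool.Agent.H8.SA

/-- The space `H(𝔻)` of holomorphic functions on the open unit disc. A holomorphic function on the
disc is represented by its extension by `0` to all of `ℂ`. -/
def HD : Set (ℂ → ℂ) :=
  {f | DifferentiableOn ℂ f (ball 0 1) ∧ ∀ z : ℂ, z ∉ ball (0 : ℂ) 1 → f z = 0}

/-- `f` is strongly annular: `limsup_{r → 1-} min_{|z| = r} |f(z)| = +∞`. -/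
def StronglyAnnular (f : ℂ → ℂ) : Prop :=
  ∀ C : ℝ, ∀ r₀ : ℝ, 0 ≤ r₀ → r₀ < 1 →
    ∃ r : ℝ, r₀ < r ∧ r < 1 ∧ ∀ z : ℂ, ‖z‖ = r → C ≤ ‖f z‖

/-- `S` is closed in `H(𝔻)` for the topology of uniform convergence on compact sets. -/
def ClosedHD (S : Set (ℂ → ℂ)) : Prop :=
  ∀ g ∈ HD, (∀ K : Set ℂ, K ⊆ ball 0 1 → IsCompact K → ∀ ε : ℝ, 0 < ε →
    ∃ f ∈ S, ∀ z ∈ K, ‖g z - f z‖ < ε) → g ∈ S

/-- The quantity `‖f‖_{p,α}`, with values in `[0,∞]`. -/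
noncomputable def bergNorm (p α : ℝ) (f : ℂ → ℂ) : ENNReal :=
  (∫⁻ z in ball (0 : ℂ) 1, ENNReal.ofReal (‖f z‖ ^ p * (1 - ‖z‖) ^ α / Real.pi)) ^ (min 1 (1 / p))

/-- The weighted Bergman space `B^p_α`. -/
def Berg (p α : ℝ) : Set (ℂ → ℂ) := {f | f ∈ HD ∧ bergNorm p α f < ⊤}

/-- `S` is closed in `B^p_α` for the metric `d(f, g) = ‖f - g‖_{p,α}`. -/
def ClosedBerg (p α : ℝ) (S : Set (ℂ → ℂ)) : Prop :=
  ∀ g ∈ Berg p α, (∀ ε : ENNReal, 0 < ε → ∃ f ∈ S, bergNorm p α (g - f) < ε) → g ∈ S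

/-- The set of strongly annular functions is spaceable in `H(𝔻)`. -/
def SpaceableHD : Prop :=
  ∃ M : Submodule ℂ (ℂ → ℂ), (∀ f ∈ M, f ∈ HD) ∧ ClosedHD {f | f ∈ M} ∧
    ¬ FiniteDimensional ℂ M ∧ ∀ f ∈ M, f ≠ 0 → StronglyAnnular f

/-- The set of strongly annular functions in `B^p_α` is spaceable in `B^p_α`. -/
def SpaceableBerg (p α : ℝ) : Prop :=
  ∃ M : Submodule ℂ (ℂ → ℂ), (∀ f ∈ M, f ∈ Berg p α) ∧ ClosedBerg p α {f | f ∈ M} ∧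
    ¬ FiniteDimensional ℂ M ∧ ∀ f ∈ M, f ≠ 0 → StronglyAnnular f

end Pool.Agent.H8.SA
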