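import Pool.Agent.H8.SA.Main

set_option autoImplicit false

open Set Metric MeasureTheory Filter Function
open scoped Topology

namespace Pool.Agent.H8.SA

noncomputable section

theorem two_pow_le_N (k : ℕ) : 2 ^ k ≤ N k := by
  induction k with
  | zero => exact le_rfl
  | succ k ih =>
    have := two_N k
    rw [pow_succ]
    omega

theorem A_le (s : ℝ) (hs : 0 < s) : ∃ D : ℝ, 0 < D ∧ ∀ l, (A l : ℝ) ≤ D * (N l : ℝ) ^ s := by
  obtain ⟨l₀, hl₀⟩ := exists_nat_ge (1 / s)
  have hN1 : ∀ l, (1 : ℝ) ≤ (N l : ℝ) ^ s := fun l =>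
    Real.one_le_rpow (by exact_mod_cast N_pos l) hs.le
  refine ⟨∑ i ∈ Finset.range (l₀ + 1), (A i : ℝ) + 1, by positivity, ?_⟩
  intro l
  have hN0 : (0 : ℝ) ≤ (N l : ℝ) ^ s := by positivity
  rcases lt_or_ge l (l₀ + 1) with h | h
  · have h1 : (A l : ℝ) ≤ ∑ i ∈ Finset.range (l₀ + 1), (A i : ℝ) :=
      Finset.single_le_sum (f := fun i => (A i : ℝ)) (fun _ _ => by positivity)
        (Finset.mem_range.2 h)
    have h2 : 0 ≤ ∑ i ∈ Finset.range (l₀ + 1), (A i : ℝ) := by positivity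
    nlinarith [hN1 l]
  · obtain ⟨k, rfl⟩ : ∃ k, l = k + 1 := ⟨l - 1, by omega⟩
    have h1 : (A (k + 1) : ℝ) ≤ (N (k + 1) : ℝ) ^ s := by
      rw [← A_pow k]
      push_cast
      rw [← Real.rpow_natCast, ← Real.rpow_mul (by positivity)]
      have hA1 : (1 : ℝ) ≤ A (k + 1) := by exact_mod_cast A_pos (k + 1)
      conv_lhs => rw [← Real.rpow_one (A (k + 1) : ℝ)]
      apply Real.rpow_le_rpow_of_exponent_le hA1
      rw [div_le_iff₀ hs] at hl₀
      have : (l₀ : ℝ) ≤ (k + 8 : ℕ) := by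
        have : l₀ ≤ k + 8 := by omega
        exact_mod_cast this
      nlinarith
    have h2 : 0 ≤ ∑ i ∈ Finset.range (l₀ + 1), (A i : ℝ) := by positivity
    nlinarith

theorem pow_bound (s : ℝ) (hs : 0 < s) (n : ℕ) (r : ℝ) (hr0 : 0 ≤ r) (hr1 : r < 1) :
    (n : ℝ) ^ s * r ^ n ≤ s ^ s * (1 - r) ^ (-s) := by
  have h1 : 0 < 1 - r := by linarith
  set u : ℝ := n * (1 - r) with hu
  have hu0 : 0 ≤ u := by positivity
  have h2 : r ^ n ≤ Real.exp (-u) := by
    have h3 : r ≤ Real.exp (-(1 - r)) := by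
      have := Real.add_one_le_exp (-(1 - r))
      linarith
    calc r ^ n ≤ (Real.exp (-(1 - r))) ^ n := pow_le_pow_left₀ hr0 h3 n
      _ = Real.exp (-u) := by
        rw [← Real.exp_nat_mul]
        congr 1
        rw [hu]
        ring
  have h4 : u ^ s ≤ s ^ s * Real.exp u := by
    have h5 : u / s ≤ Real.exp (u / s) := by
      have := Real.add_one_le_exp (u / s)
      linarith
    have h6 : (u / s) ^ s ≤ Real.exp u := by
      calc (u / s) ^ s ≤ (Real.exp (u / s)) ^ s := Real.rpow_le_rpow (by positivity) h5 hs.le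
        _ = Real.exp u := by
          rw [← Real.exp_mul]
          congr 1
          field_simp
    rw [Real.div_rpow hu0 hs.le, div_le_iff₀ (by positivity)] at h6
    linarith
  have h7 : (n : ℝ) ^ s = u ^ s * (1 - r) ^ (-s) := by
    rw [hu, Real.mul_rpow (by positivity) h1.le, mul_assoc, ← Real.rpow_add h1]
    simp
  have h8 : (0 : ℝ) ≤ (1 - r) ^ (-s) := by positivity
  calc (n : ℝ) ^ s * r ^ n = u ^ s * (1 - r) ^ (-s) * r ^ n := by rw [h7]
    _ ≤ (s ^ s * Real.exp u) * (1 - r) ^ (-s) * Real.exp (-u) := by gcongr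
    _ = s ^ s * (1 - r) ^ (-s) * (Real.exp u * Real.exp (-u)) := by ring
    _ = _ := by rw [← Real.exp_add, add_neg_cancel, Real.exp_zero, mul_one]

theorem growth (s : ℝ) (hs : 0 < s) : ∃ C : ℝ, 0 < C ∧ ∀ r : ℝ, 0 ≤ r → r < 1 →
    (Summable fun l => (A l : ℝ) * r ^ N l) ∧ ∑' l, (A l : ℝ) * r ^ N l ≤ C * (1 - r) ^ (-s) := by
  obtain ⟨D, hD, h1⟩ := A_le (s / 2) (by positivity)
  set q : ℝ := 2 ^ (-(s / 2)) with hq
  have hq0 : 0 < q := by positivity
  have hq1 : q < 1 := Real.rpow_lt_one_of_one_lt_of_neg (by norm_num) (by linarith)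
  have hq2 : 0 < 1 - q := by linarith
  refine ⟨D * s ^ s / (1 - q), by positivity, ?_⟩
  intro r hr0 hr1
  have h0 : 0 < 1 - r := by linarith
  have hterm : ∀ l, (A l : ℝ) * r ^ N l ≤ D * s ^ s * (1 - r) ^ (-s) * q ^ l := by
    intro l
    have hN : (0 : ℝ) < N l := by exact_mod_cast N_pos l
    have h2 : (N l : ℝ) ^ (s / 2) = (N l : ℝ) ^ s * (N l : ℝ) ^ (-(s / 2)) := by
      rw [← Real.rpow_add hN]
      congr 1
      ring
    have h3 : (N l : ℝ) ^ (-(s / 2)) ≤ q ^ l := by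
      have h4 : ((2 : ℝ) ^ l) ≤ N l := by exact_mod_cast two_pow_le_N l
      calc (N l : ℝ) ^ (-(s / 2)) ≤ ((2 : ℝ) ^ l) ^ (-(s / 2)) :=
            Real.rpow_le_rpow_of_nonpos (by positivity) h4 (by linarith)
        _ = q ^ l := by
          rw [hq, ← Real.rpow_natCast, ← Real.rpow_natCast, ← Real.rpow_mul (by norm_num),
            ← Real.rpow_mul (by norm_num), mul_comm]
    have h5 := pow_bound s hs (N l) r hr0 hr1
    have h6 : (0 : ℝ) ≤ (N l : ℝ) ^ s * r ^ N l := by positivity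
    calc (A l : ℝ) * r ^ N l ≤ (D * (N l : ℝ) ^ (s / 2)) * r ^ N l := by
          apply mul_le_mul_of_nonneg_right (h1 l); positivity
      _ = D * ((N l : ℝ) ^ s * r ^ N l) * (N l : ℝ) ^ (-(s / 2)) := by rw [h2]; ring
      _ ≤ D * (s ^ s * (1 - r) ^ (-s)) * q ^ l := by gcongr
      _ = _ := by ring
  have hg : Summable fun l : ℕ => D * s ^ s * (1 - r) ^ (-s) * q ^ l :=
    (summable_geometric_of_lt_one hq0.le hq1).mul_left _
  have hsum : Summable fun l => (A l : ℝ) * r ^ N l :=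
    Summable.of_nonneg_of_le (fun l => by positivity) hterm hg
  refine ⟨hsum, ?_⟩
  calc ∑' l, (A l : ℝ) * r ^ N l ≤ ∑' l : ℕ, D * s ^ s * (1 - r) ^ (-s) * q ^ l :=
        hsum.tsum_le_tsum hterm hg
    _ = D * s ^ s / (1 - q) * (1 - r) ^ (-s) := by
      rw [tsum_mul_left, tsum_geometric_of_lt_one hq0.le hq1]
      field_simp

/-- Coefficients of the basic functions. -/
def cc (j l : ℕ) : ℂ := if jj l = j then (A l : ℂ) else 0

theorem cc_norm (j l : ℕ) : ‖cc j l‖ ≤ A l := by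
  unfold cc
  split_ifs
  · rw [Complex.norm_natCast]
  · rw [norm_zero]; positivity

/-- The basic functions. -/
def e (j : ℕ) : ℂ → ℂ := fun z => by
  classical exact if z ∈ ball (0 : ℂ) 1 then ∑' l, cc j l * z ^ N l else 0

theorem e_in (j : ℕ) (z : ℂ) (hz : z ∈ ball (0 : ℂ) 1) : e j z = ∑' l, cc j l * z ^ N l := by
  unfold e
  rw [if_pos hz]

theorem term_bound (j l : ℕ) (z : ℂ) (r : ℝ) (hz : ‖z‖ ≤ r) : ‖cc j l * z ^ N l‖ ≤ A l * r ^ N l := by
  rw [norm_mul, norm_pow]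
  exact mul_le_mul (cc_norm j l) (pow_le_pow_left₀ (norm_nonneg _) hz _) (by positivity)
    (by positivity)

theorem e_HD (j : ℕ) : e j ∈ HD := by
  constructor
  · intro z₀ hz₀
    rw [mem_ball_zero_iff] at hz₀
    obtain ⟨r, hr1, hr2⟩ := exists_between hz₀
    have hr0 : 0 ≤ r := (norm_nonneg _).trans hr1.le
    obtain ⟨C, -, hC⟩ := growth 1 one_pos
    have hs := (hC r hr0 hr2).1
    have h1 : DifferentiableOn ℂ (fun z => ∑' l, cc j l * z ^ N l) (ball 0 r) := by
      apply Complex.differentiableOn_tsum_of_summable_norm hs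
      · intro l; fun_prop
      · exact isOpen_ball
      · intro l w hw
        rw [mem_ball_zero_iff] at hw
        exact term_bound j l w r hw.le
    have h2 : DifferentiableOn ℂ (e j) (ball 0 r) := by
      apply h1.congr
      intro z hz
      exact e_in j z (ball_subset_ball hr2.le hz)
    have h3 : z₀ ∈ ball (0 : ℂ) r := by rw [mem_ball_zero_iff]; exact hr1
    exact (h2.differentiableAt (isOpen_ball.mem_nhds h3)).differentiableWithinAt
  · intro z hz
    unfold e
    rw [if_neg hz]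

theorem e_bound (j : ℕ) (s : ℝ) (hs : 0 < s) : ∃ C : ℝ, 0 ≤ C ∧ ∀ z ∈ ball (0 : ℂ) 1,
    ‖e j z‖ ≤ C * (1 - ‖z‖) ^ (-s) := by
  obtain ⟨C, hC0, hC⟩ := growth s hs
  refine ⟨C, hC0.le, ?_⟩
  intro z hz
  rw [e_in j z hz]
  rw [mem_ball_zero_iff] at hz
  obtain ⟨h1, h2⟩ := hC ‖z‖ (norm_nonneg _) hz
  refine le_trans ?_ h2
  have h3 : Summable fun l => ‖cc j l * z ^ N l‖ :=
    Summable.of_nonneg_of_le (fun _ => norm_nonneg _) (fun l => term_bound j l z _ le_rfl) h1
  exact (norm_tsum_le_tsum_norm h3).trans (h3.tsum_le_tsum (fun l => term_bound j l z _ le_rfl) h1)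

theorem e_coeff (j n : ℕ) : a n (e j) = extend N (cc j) 0 n := by
  apply a_unique (e_HD j)
  intro z hz
  rw [e_in j z hz, ← N_strictMono.injective.hasSum_iff]
  · have : ((fun n => extend N (cc j) 0 n * z ^ n) ∘ N) = fun l => cc j l * z ^ N l := by
      funext l
      simp only [comp_apply, N_strictMono.injective.extend_apply]
    rw [this]
    apply Summable.hasSum
    rw [mem_ball_zero_iff] at hz
    obtain ⟨C, -, hC⟩ := growth 1 one_pos
    have h3 : Summable fun l => ‖cc j l * z ^ N l‖ :=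
      Summable.of_nonneg_of_le (fun _ => norm_nonneg _) (fun l => term_bound j l z _ le_rfl)
        (hC ‖z‖ (norm_nonneg _) hz).1
    exact h3.of_norm
  · intro n hn
    rw [extend_apply' _ _ _ hn]
    simp

theorem e_mem (j : ℕ) : e j ∈ M0 := by
  refine ⟨e_HD j, ?_, ?_⟩
  · intro n hn
    rw [e_coeff, extend_apply' _ _ _ hn]
    rfl
  · intro l l' hl
    rw [e_coeff, e_coeff, N_strictMono.injective.extend_apply, N_strictMono.injective.extend_apply]
    unfold cc
    rw [hl]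
    split_ifs
    · ring
    · ring

theorem e_mem1 (p α : ℝ) (hp : 0 < p) (hα : -1 < α) (j : ℕ) : e j ∈ M1 p α hp := by
  refine ⟨e_mem j, ?_⟩
  have hs : 0 < (α + 1) / (2 * p) := div_pos (by linarith) (by positivity)
  obtain ⟨C, hC0, hC⟩ := e_bound j _ hs
  exact I_fin hp hα (e j) C hC0 hC

theorem infdim (M : Submodule ℂ (ℂ → ℂ)) (hM : ∀ f ∈ M, f ∈ HD) (he : ∀ j, e j ∈ M) :
    ¬ FiniteDimensional ℂ M := by
  intro hfd
  let v : ℕ → M := fun j => ⟨e j, he j⟩
  let φ : ℕ → Module.Dual ℂ M := fun j =>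
    { toFun := fun f => a (N (Nat.pair j 0)) f.1 / A (Nat.pair j 0)
      map_add' := fun f g => by
        rw [show (f + g).1 = f.1 + g.1 from rfl, a_add _ (hM _ f.2) (hM _ g.2), add_div]
      map_smul' := fun c f => by
        rw [show (c • f).1 = c • f.1 from rfl, a_smul _ c (hM _ f.2)]
        simp only [RingHom.id_apply, smul_eq_mul]
        ring }
  have hφ : ∀ i j, φ i (v j) = cc j (Nat.pair i 0) / A (Nat.pair i 0) := by
    intro i j
    change a (N (Nat.pair i 0)) (e j) / A (Nat.pair i 0) = _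
    rw [e_coeff, N_strictMono.injective.extend_apply]
  have hjj : ∀ i, jj (Nat.pair i 0) = i := by
    intro i
    unfold jj
    rw [Nat.unpair_pair]
  have hli : LinearIndependent ℂ v := by
    apply LinearIndependent.of_pairwise_dual_eq_zero_one v φ
    · intro i j hij
      rw [hφ]
      unfold cc
      rw [hjj, if_neg hij, zero_div]
    · intro i
      rw [hφ]
      unfold cc
      rw [hjj, if_pos rfl, div_self]
      exact_mod_cast (A_pos _).ne'
  have := hli.finite_of_isNoetherian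
  exact not_finite ℕ

theorem main1 : SpaceableHD :=
  ⟨M0, fun _ hf => hf.1, M0_closed, infdim M0 (fun _ hf => hf.1) e_mem, M0_annular⟩

theorem main2 (p α : ℝ) (hp : 0 < p) (hα : -1 < α) : SpaceableBerg p α :=
  ⟨M1 p α hp, fun f hf => ⟨hf.1.1, (berg_iff hp α f).2 hf.2⟩, M1_closed p α hp,
    infdim _ (fun _ hf => hf.1.1) (e_mem1 p α hp hα), fun f hf h0 => M0_annular f hf.1 h0⟩

end

end Pool.Agent.H8.SA
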