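import Pool.Agent.H8.SA.Ann
import Pool.Agent.H8.SA.Berg

set_option autoImplicit false

open Set Metric MeasureTheory Filter Function
open scoped Topology

namespace Pool.Agent.H8.SA

noncomputable section

/-- The block of an index. -/
def jj (l : ℕ) : ℕ := (Nat.unpair l).1

/-- The coefficient relations. -/
def Rel (f : ℂ → ℂ) : Prop :=
  (∀ n, n ∉ range N → a n f = 0) ∧
    ∀ l l', jj l = jj l' → a (N l) f * A l' = a (N l') f * A l

/-- The subspace. -/
def M0 : Submodule ℂ (ℂ → ℂ) where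
  carrier := {f | f ∈ HD ∧ Rel f}
  add_mem' := by
    rintro f g ⟨hf, h1, h2⟩ ⟨hg, h3, h4⟩
    refine ⟨HD_add hf hg, ?_, ?_⟩
    · intro n hn
      rw [a_add n hf hg, h1 n hn, h3 n hn, add_zero]
    · intro l l' hl
      rw [a_add _ hf hg, a_add _ hf hg, add_mul, add_mul, h2 l l' hl, h4 l l' hl]
  zero_mem' := by
    have h0 : ∀ n, a n (0 : ℂ → ℂ) = 0 := by
      intro n
      have := a_smul n 0 HD_zero
      rwa [zero_smul, zero_mul] at this
    refine ⟨HD_zero, fun n _ => h0 n, fun l l' _ => by rw [h0, h0]; ring⟩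
  smul_mem' := by
    rintro c f ⟨hf, h1, h2⟩
    refine ⟨HD_smul c hf, ?_, ?_⟩
    · intro n hn
      rw [a_smul n c hf, h1 n hn, mul_zero]
    · intro l l' hl
      rw [a_smul _ c hf, a_smul _ c hf, mul_assoc, mul_assoc, h2 l l' hl]

/-- `M0 ∩ B^p_α`. -/
def M1 (p α : ℝ) (hp : 0 < p) : Submodule ℂ (ℂ → ℂ) where
  carrier := {f | f ∈ M0 ∧ I p α f < ⊤}
  add_mem' := by
    rintro f g ⟨hf, h1⟩ ⟨hg, h2⟩
    exact ⟨M0.add_mem hf hg, I_add hp α hf.1 h1 h2⟩
  zero_mem' := by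
    refine ⟨M0.zero_mem, ?_⟩
    have : I p α 0 = 0 := by
      unfold I
      simp [Real.zero_rpow hp.ne']
    rw [this]
    exact ENNReal.zero_lt_top
  smul_mem' := by
    rintro c f ⟨hf, h1⟩
    exact ⟨M0.smul_mem c hf, I_smul α c h1⟩

theorem M0_annular (f : ℂ → ℂ) (hf : f ∈ M0) (h0 : f ≠ 0) : StronglyAnnular f := by
  obtain ⟨hH, h1, h2⟩ := hf
  have hex : ∃ n, a n f ≠ 0 := by
    by_contra hcon
    push Not at hcon
    exact h0 (eq_zero_of_a hH hcon)
  obtain ⟨n, hn⟩ := hex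
  have hnr : n ∈ range N := by
    by_contra hcon
    exact hn (h1 n hcon)
  obtain ⟨l₀, rfl⟩ := hnr
  let b : ℕ → ℂ := fun l => a (N l) f
  have hsum : ∀ z ∈ ball (0 : ℂ) 1, HasSum (fun l => b l * z ^ N l) (f z) := by
    intro z hz
    have h3 := hasSum_a hH z hz
    rw [← N_strictMono.injective.hasSum_iff] at h3
    · exact h3
    · intro n hn
      rw [h1 n hn, zero_mul]
  have hA0 : (0 : ℝ) < A l₀ := by exact_mod_cast A_pos _
  have hb1 : ∀ r : ℝ, 0 ≤ r → r < 1 → Summable fun l => ‖b l‖ * r ^ N l := by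
    intro r hr0 hr1
    have hz : (r : ℂ) ∈ ball (0 : ℂ) 1 := by
      rw [mem_ball_zero_iff, Complex.norm_real, Real.norm_of_nonneg hr0]
      exact hr1
    have := (hsum _ hz).summable.norm
    refine this.congr ?_
    intro l
    rw [norm_mul, norm_pow, Complex.norm_real, Real.norm_of_nonneg hr0]
  have hb2 : ∀ m, ∃ k, m < k ∧ ‖a (N l₀) f‖ / A l₀ * A k ≤ ‖b k‖ := by
    intro m
    refine ⟨Nat.pair (jj l₀) (m + 1), ?_, ?_⟩
    · have := Nat.right_le_pair (jj l₀) (m + 1)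
      omega
    · set k := Nat.pair (jj l₀) (m + 1) with hk
      have hjk : jj k = jj l₀ := by
        have : jj k = (Nat.unpair (Nat.pair (jj l₀) (m + 1))).1 := rfl
        rw [this, Nat.unpair_pair]
      have h3 := h2 k l₀ hjk
      have h4 : ‖b k‖ * A l₀ = ‖a (N l₀) f‖ * A k := by
        have := congrArg norm h3
        rwa [norm_mul, norm_mul, Complex.norm_natCast, Complex.norm_natCast] at this
      rw [div_mul_eq_mul_div, div_le_iff₀ hA0, ← h4]
  intro C r₀ _ hr₀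
  obtain ⟨r, hr1, hr2, hr3⟩ := annular b hb1 (‖a (N l₀) f‖ / A l₀)
    (div_pos (norm_pos_iff.2 hn) hA0) hb2 C r₀ hr₀
  refine ⟨r, hr1, hr2, ?_⟩
  intro z hz
  have hzb : z ∈ ball (0 : ℂ) 1 := by rw [mem_ball_zero_iff, hz]; exact hr2
  rw [← (hsum z hzb).tsum_eq]
  exact hr3 z hz

theorem rel_of_approx (g : ℂ → ℂ) (hg : g ∈ HD)
    (h : ∀ n m : ℕ, ∀ ε : ℝ, 0 < ε → ∃ f ∈ M0, ‖a n (g - f)‖ < ε ∧ ‖a m (g - f)‖ < ε) :
    g ∈ M0 := by
  refine ⟨hg, ?_, ?_⟩
  · intro n hn
    rw [← norm_le_zero_iff]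
    apply le_of_forall_pos_lt_add
    intro ε hε
    obtain ⟨f, hf, h1, -⟩ := h n n ε hε
    rw [a_sub n hg hf.1, hf.2.1 n hn, sub_zero] at h1
    linarith
  · intro l l' hl
    rw [← sub_eq_zero, ← norm_le_zero_iff]
    apply le_of_forall_pos_lt_add
    intro ε hε
    have hA : (0 : ℝ) < A l + A l' := by
      have h1 : (0 : ℝ) < A l := by exact_mod_cast A_pos _
      have h2 : (0 : ℝ) < A l' := by exact_mod_cast A_pos _
      linarith
    obtain ⟨f, hf, h1, h2⟩ := h (N l) (N l') (ε / (A l + A l')) (by positivity)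
    have h3 := hf.2.2 l l' hl
    have e1 : a (N l) g * A l' - a (N l') g * A l =
        a (N l) (g - f) * A l' - a (N l') (g - f) * A l := by
      rw [a_sub _ hg hf.1, a_sub _ hg hf.1]
      linear_combination h3
    rw [e1, zero_add]
    calc ‖a (N l) (g - f) * A l' - a (N l') (g - f) * A l‖
        ≤ ‖a (N l) (g - f) * A l'‖ + ‖a (N l') (g - f) * A l‖ := norm_sub_le _ _
      _ = ‖a (N l) (g - f)‖ * A l' + ‖a (N l') (g - f)‖ * A l := by
        rw [norm_mul, norm_mul, Complex.norm_natCast, Complex.norm_natCast]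
      _ < ε / (A l + A l') * A l' + ε / (A l + A l') * A l := by
        have h5 : (0 : ℝ) < A l := by exact_mod_cast A_pos _
        have h6 : (0 : ℝ) < A l' := by exact_mod_cast A_pos _
        have := mul_lt_mul_of_pos_right h1 h6
        have := mul_lt_mul_of_pos_right h2 h5
        linarith
      _ = ε := by field_simp; ring

theorem M0_closed : ClosedHD {f | f ∈ M0} := by
  intro g hg happ
  apply rel_of_approx g hg
  intro n m ε hε
  -- Cauchy estimate on the closed ball of radius `1/2`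
  have hK : closedBall (0 : ℂ) (1 / 2) ⊆ ball 0 1 := closedBall_subset_ball (by norm_num)
  set c : ℝ := ε / (2 * (2 ^ n + 2 ^ m)) with hc
  have hc0 : 0 < c := by positivity
  obtain ⟨f, hf, h1⟩ := happ (closedBall 0 (1 / 2)) hK (isCompact_closedBall _ _) c hc0
  have hdiff := (HD_sub hg hf.1)
  have key : ∀ k : ℕ, ‖a k (g - f)‖ ≤ c * 2 ^ k := by
    intro k
    have h2 : DiffContOnCl ℂ (g - f) (ball 0 (1 / 2)) := by
      apply DifferentiableOn.diffContOnCl
      rw [closure_ball _ (by norm_num)]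
      exact hdiff.1.mono hK
    have h3 := Complex.norm_iteratedDeriv_le_of_forall_mem_sphere_norm_le k (by norm_num) h2
      (C := c) (fun z hz => (h1 z (sphere_subset_closedBall hz)).le)
    unfold a
    rw [norm_div, Complex.norm_natCast, div_le_iff₀ (by positivity)]
    refine h3.trans_eq ?_
    rw [one_div, inv_pow, div_inv_eq_mul]
    ring
  refine ⟨f, hf, ?_, ?_⟩
  · refine (key n).trans_lt ?_
    have h5 : (0 : ℝ) < 2 ^ n := by positivity
    have h6 : (0 : ℝ) < 2 ^ m := by positivity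
    rw [hc, div_mul_eq_mul_div, div_lt_iff₀ (by positivity)]
    nlinarith [mul_pos hε h5, mul_pos hε h6]
  · refine (key m).trans_lt ?_
    have h5 : (0 : ℝ) < 2 ^ n := by positivity
    have h6 : (0 : ℝ) < 2 ^ m := by positivity
    rw [hc, div_mul_eq_mul_div, div_lt_iff₀ (by positivity)]
    nlinarith [mul_pos hε h5, mul_pos hε h6]

theorem M1_closed (p α : ℝ) (hp : 0 < p) : ClosedBerg p α {f | f ∈ M1 p α hp} := by
  rintro g ⟨hg, hfin⟩ happ
  refine ⟨?_, (berg_iff hp α g).1 hfin⟩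
  apply rel_of_approx g hg
  intro n m ε hε
  obtain ⟨δ₁, hδ₁, h1⟩ := a_small hp α n ε hε
  obtain ⟨δ₂, hδ₂, h2⟩ := a_small hp α m ε hε
  obtain ⟨f, hf, h3⟩ := happ (min δ₁ δ₂) (lt_min hδ₁ hδ₂)
  exact ⟨f, hf.1, h1 _ (HD_sub hg hf.1.1) (h3.trans_le (min_le_left _ _)),
    h2 _ (HD_sub hg hf.1.1) (h3.trans_le (min_le_right _ _))⟩

end

end Pool.Agent.H8.SA
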